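import Pool.Agent.Helper2.QP.Words2

/-!
# MP_cd187e_co: quasi-polynomial corrections to the growth of area-weighted polygons, for all `0 < q < 1`

The proof cuts a self-avoiding polygon along an interior path; see `Pool/Agent/Helper2/QP`.
-/

set_option autoImplicit false

namespace Pool.Agent.Results.MP_cd187e_co.QuasiPoly

open Filter

/-- Let `x = x_c(q)` be the critical curve. On each compact interval `[a, b]` of `(0, 1)` there is a constant `K`
such that for all `q` in `[a, b]` the weighted number `Z m q` of rooted polygons satisfies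
`exp (-K (log m)²) ≤ Z m q * x ^ m ≤ 4 m x` for all `m ≥ 2`, so that
`|log x + log (Z m q) / m| ≤ K (log m)² / m`, and every window `[n/4, n]` contains a `j` with
`Z j q * x ^ j ≥ j ^ (-2) / K`. -/
theorem result :
    ∀ (P : (m : ℕ) → (Fin (2*m) → Fin 4) → ℕ → ℤ × ℤ),
      (∀ m s k, P m s k = ∑ i ∈ Finset.univ.filter (fun i : Fin (2*m) => i.val < k),
        (![((1:ℤ), (0:ℤ)), ((0:ℤ), (1:ℤ)), ((-1:ℤ), (0:ℤ)), ((0:ℤ), (-1:ℤ))] : Fin 4 → ℤ × ℤ) (s i)) →
    ∀ (Z : ℕ → ℝ → ℝ),
      (∀ m q, Z m q = ∑ s ∈ Finset.univ.filter (fun s : Fin (2*m) → Fin 4 =>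
          P m s (2*m) = 0 ∧ ∀ j k : Fin (2*m), P m s j.val = P m s k.val → j = k),
        q ^ ((((|∑ k : Fin (2*m), ((P m s k.val).1 * (P m s (k.val+1)).2
              - (P m s (k.val+1)).1 * (P m s k.val).2)| : ℤ) : ℝ)) / 2)) →
    ∀ a b : ℝ, 0 < a → a ≤ b → b < 1 → ∃ K : ℝ, 0 < K ∧
      ∀ q : ℝ, a ≤ q → q ≤ b →
      ∀ x : ℝ, x = 1 / Filter.limsup (fun m : ℕ => (Z m q) ^ ((1:ℝ) / m)) Filter.atTop →
        0 < x ∧
        (∀ m : ℕ, 2 ≤ m →
          Real.exp (-K * (Real.log m) ^ 2) ≤ Z m q * x ^ m ∧ Z m q * x ^ m ≤ 4 * m * x ∧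
          |Real.log x + Real.log (Z m q) / m| ≤ K * (Real.log m) ^ 2 / m) ∧
        (∀ n : ℕ, 2 ≤ n → ∃ j : ℕ, n ≤ 4 * j ∧ j ≤ n ∧ 1 / (K * (j : ℝ) ^ 2) ≤ Z j q * x ^ j) := by
  intro P hP Z hZ a b ha hab hb
  obtain ⟨K, hK, hmain⟩ := Pool.Agent.Helper2.QP.words_main2 a b ha hab hb
  have hlog2 : (1 : ℝ) / 2 < Real.log 2 := by
    have := Real.log_two_gt_d9
    linarith
  have hla : Real.log a < 0 := Real.log_neg ha (lt_of_le_of_lt hab hb)
  refine ⟨K + 40 - 4 * Real.log a, by linarith, fun q hq1 hq2 x hx => ?_⟩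
  have hq0 : 0 < q := lt_of_lt_of_le ha hq1
  have hZ2 : ∀ m, Z m q = Pool.Agent.Helper2.QP.Zn (2 * m) q := fun m =>
    Pool.Agent.Helper2.QP.frozen_eq P hP Z hZ m q hq0
  simp only [hZ2] at hx ⊢
  obtain ⟨hΛ, hA, hB⟩ := hmain q hq1 hq2 _ rfl
  set Λ := limsup (fun m : ℕ => (Pool.Agent.Helper2.QP.Zn (2 * m) q) ^ ((1 : ℝ) / m)) atTop
    with hΛd
  have hx0 : 0 < x := by rw [hx]; positivity
  have hΛx : Λ * x = 1 := by rw [hx, mul_one_div_cancel hΛ.ne']
  have hxm : ∀ m : ℕ, Λ ^ m * x ^ m = 1 := by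
    intro m
    rw [← mul_pow, hΛx, one_pow]
  have hxpos : ∀ m : ℕ, 0 < x ^ m := fun m => pow_pos hx0 m
  -- a crude upper bound for `x`
  have hxa : Real.log x ≤ 3 - Real.log a := by
    obtain ⟨-, h2⟩ := hA 2 le_rfl
    have h3 := Pool.Agent.Helper2.QP.Zn_lower q hq0 2 le_rfl
    have h4 : q ≤ 4 * ((2 : ℕ) : ℝ) * Λ := by
      simpa using h3.trans h2
    have h5 : a * x ≤ 8 := by
      have h6 : q * x ≤ 8 * (Λ * x) := by
        have := mul_le_mul_of_nonneg_right h4 hx0.le
        push_cast at this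
        linarith
      rw [hΛx] at h6
      have h7 := mul_le_mul_of_nonneg_right hq1 hx0.le
      linarith
    have h6 := Real.log_le_log (mul_pos ha hx0) h5
    rw [Real.log_mul ha.ne' hx0.ne'] at h6
    have h7 : Real.log 8 ≤ 3 := by
      have h8 : Real.log 8 = 3 * Real.log 2 := by
        rw [show (8 : ℝ) = 2 ^ 3 by norm_num, Real.log_pow]
        norm_num
      have := Real.log_two_lt_d9
      linarith
    linarith
  refine ⟨hx0, fun m hm => ?_, fun n hn => ?_⟩
  · obtain ⟨h1, h2⟩ := hA m hm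
    have hm2 : (2 : ℝ) ≤ m := by exact_mod_cast hm
    have hm0 : (0 : ℝ) < m := by linarith
    have hl : Real.log 2 ≤ Real.log m := Real.log_le_log (by norm_num) hm2
    have hl2 : 1 / 2 < Real.log m := by linarith
    set L := Real.log m with hL
    set z := Pool.Agent.Helper2.QP.Zn (2 * m) q with hz
    have e1 : Real.exp (-K * L ^ 2) ≤ z * x ^ m := by
      have := mul_le_mul_of_nonneg_right h1 (hxpos m).le
      rwa [mul_assoc, hxm, mul_one] at this
    have e2 : z * x ^ m ≤ 4 * m * x := by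
      have h3 := mul_le_mul_of_nonneg_right h2 (hxpos m).le
      have h4 : 4 * (m : ℝ) * Λ ^ (m - 1) * x ^ m = 4 * m * x := by
        have h5 : x ^ m = x ^ (m - 1) * x := by
          rw [← pow_succ]
          congr 1
          omega
        rw [h5, mul_assoc, ← mul_assoc (Λ ^ (m - 1)), hxm, one_mul]
      rwa [h4] at h3
    have hzpos : 0 < z := lt_of_lt_of_le (by positivity) h1
    have hLL : 0 ≤ L ^ 2 := sq_nonneg _
    refine ⟨?_, e2, ?_⟩
    · refine le_trans (Real.exp_le_exp.2 ?_) e1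
      nlinarith
    · have e3 : Real.log (z * x ^ m) = Real.log z + m * Real.log x := by
        rw [Real.log_mul hzpos.ne' (hxpos m).ne', Real.log_pow]
      have e4 : -K * L ^ 2 ≤ Real.log z + m * Real.log x := by
        rw [← e3, Real.le_log_iff_exp_le (mul_pos hzpos (hxpos m))]
        exact e1
      have e5 : Real.log z + m * Real.log x ≤ Real.log 4 + L + Real.log x := by
        rw [← e3]
        have h3 := Real.log_le_log (mul_pos hzpos (hxpos m)) e2
        rw [Real.log_mul (x := 4 * (m : ℝ)) (y := x) (by positivity) hx0.ne',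
          Real.log_mul (x := 4) (y := (m : ℝ)) (by norm_num) (by positivity)] at h3
        exact h3
      have e6 : Real.log x + Real.log z / m = (Real.log z + m * Real.log x) / m := by
        field_simp
        ring
      have h4 : Real.log 4 ≤ 2 := by
        have h8 : Real.log 4 = 2 * Real.log 2 := by
          rw [show (4 : ℝ) = 2 ^ 2 by norm_num, Real.log_pow]
          norm_num
        have := Real.log_two_lt_d9
        linarith
      rw [e6, abs_div, abs_of_pos hm0]
      apply div_le_div_of_nonneg_right _ hm0.le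
      rw [abs_le]
      constructor
      · nlinarith
      · refine e5.trans ?_
        have e7 : 1 ≤ 4 * L ^ 2 := by nlinarith
        have e8 : L ≤ 2 * L ^ 2 := by nlinarith
        have e9 : - Real.log a ≤ - Real.log a * (4 * L ^ 2) := by nlinarith
        nlinarith
  · obtain ⟨j, hj1, hj2, hj3, hj4⟩ := hB n hn
    refine ⟨j, hj2, hj3, ?_⟩
    have hj0 : (0 : ℝ) < j := by exact_mod_cast (by omega : 0 < j)
    have hj5 : 1 ≤ K * (j : ℝ) ^ 2 * (Pool.Agent.Helper2.QP.Zn (2 * j) q * x ^ j) := by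
      have := mul_le_mul_of_nonneg_right hj4 (hxpos j).le
      rwa [hxm, mul_assoc (K * (j : ℝ) ^ 2)] at this
    have hz0 : 0 ≤ Pool.Agent.Helper2.QP.Zn (2 * j) q * x ^ j :=
      mul_nonneg (Pool.Agent.Helper2.QP.Zn_nonneg q hq0 _) (hxpos j).le
    rw [div_le_iff₀ (mul_pos (by linarith) (by positivity))]
    have h6 : K * (j : ℝ) ^ 2 * (Pool.Agent.Helper2.QP.Zn (2 * j) q * x ^ j) ≤
        (K + 40 - 4 * Real.log a) * (j : ℝ) ^ 2 *
          (Pool.Agent.Helper2.QP.Zn (2 * j) q * x ^ j) := by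
      apply mul_le_mul_of_nonneg_right _ hz0
      apply mul_le_mul_of_nonneg_right _ (by positivity)
      linarith
    linarith

end Pool.Agent.Results.MP_cd187e_co.QuasiPoly
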