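import Pool.Agent.Results.MP_cd187e_co.QuasiPoly
import Pool.Agent.Helper99.PT.Main
import Pool.Agent.Helper99.PT.RatAna

/-!
# MP_cd187e_co: the ratio limit theorem for area-weighted polygons, for all `0 < q < 1`

Weak pattern theorem on the right side of the polygon and Kesten's argument; see
`Pool/Agent/Helper99/PT`.
-/

set_option autoImplicit false

namespace Pool.Agent.Results.MP_cd187e_co.RatioLimit

open Filter Pool.Agent.Helper99.PT
open Pool.Agent.Helper2.QP (Zn Zn_lower Zn_upper)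

/-- Let `x = x_c(q)` be the critical curve. On each compact interval `[a, b]` of `(0, 1)` there are
constants `C`, `m₀` such that for all `q` in `[a, b]` and all `m ≥ m₀` the ratio `Z (m+1) q / Z m q` of
the weighted numbers of rooted polygons differs from `1 / x` by at most `C log m / m^(1/4)`. -/
theorem result :
    ∀ (P : (m : ℕ) → (Fin (2*m) → Fin 4) → ℕ → ℤ × ℤ),
      (∀ m s k, P m s k = ∑ i ∈ Finset.univ.filter (fun i : Fin (2*m) => i.val < k),
        (![((1:ℤ), (0:ℤ)), ((0:ℤ), (1:ℤ)), ((-1:ℤ), (0:ℤ)), ((0:ℤ), (-1:ℤ))] : Fin 4 → ℤ × ℤ) (s i)) →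
    ∀ (Z : ℕ → ℝ → ℝ),
      (∀ m q, Z m q = ∑ s ∈ Finset.univ.filter (fun s : Fin (2*m) → Fin 4 =>
          P m s (2*m) = 0 ∧ ∀ j k : Fin (2*m), P m s j.val = P m s k.val → j = k),
        q ^ ((((|∑ k : Fin (2*m), ((P m s k.val).1 * (P m s (k.val+1)).2
              - (P m s (k.val+1)).1 * (P m s k.val).2)| : ℤ) : ℝ)) / 2)) →
    ∀ a b : ℝ, 0 < a → a ≤ b → b < 1 → ∃ C : ℝ, ∃ m₀ : ℕ,
      ∀ q : ℝ, a ≤ q → q ≤ b →
      ∀ x : ℝ, x = 1 / Filter.limsup (fun m : ℕ => (Z m q) ^ ((1:ℝ) / m)) Filter.atTop →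
        0 < x ∧ ∀ m : ℕ, m₀ ≤ m →
          |Z (m + 1) q / Z m q - 1 / x| ≤ C * Real.log m / (m : ℝ) ^ ((1 : ℝ) / 4) := by
  intro P hP Z hZ a b ha hab hb
  have hZ2 : ∀ m q, 0 < q → Z m q = Zn (2 * m) q := fun m q hq =>
    Pool.Agent.Helper2.QP.frozen_eq P hP Z hZ m q hq
  obtain ⟨K₂, hK₂, hQ⟩ := Pool.Agent.Results.MP_cd187e_co.QuasiPoly.result P hP Z hZ a b ha hab hb
  obtain ⟨C₃, hC₃, m₃, hri⟩ := ratio_ineq a b ha hab hb
  -- bounds for `x`
  have hxb : ∀ q, a ≤ q → q ≤ b → ∀ x : ℝ,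
      x = 1 / Filter.limsup (fun m : ℕ => (Z m q) ^ ((1:ℝ) / m)) Filter.atTop →
      Real.log x ≤ K₂ - Real.log a ∧ - K₂ - 3 ≤ Real.log x := by
    intro q hq1 hq2 x hx
    have hq0 : 0 < q := lt_of_lt_of_le ha hq1
    obtain ⟨hx0, h1, -⟩ := hQ q hq1 hq2 x hx
    have h2 := (h1 2 le_rfl).2.2
    have h3 := Zn_lower q hq0 2 le_rfl
    have h4 := Zn_upper q hq0 (hq2.trans hb.le) (2 * 2)
    rw [← hZ2 2 q hq0] at h3 h4
    have h5 : q ≤ Z 2 q := by simpa using h3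
    have hl : (0 : ℝ) < Real.log 2 := Real.log_pos (by norm_num)
    have hl2 := Real.log_two_lt_d9
    have h6 : K₂ * Real.log ((2 : ℕ) : ℝ) ^ 2 / ((2 : ℕ) : ℝ) ≤ K₂ := by
      push_cast
      have : Real.log 2 ^ 2 ≤ 1 := by nlinarith
      nlinarith
    have h7 := abs_le.1 (h2.trans h6)
    have h8 : Real.log a ≤ Real.log (Z 2 q) := Real.log_le_log ha (hq1.trans h5)
    have h9 : Real.log (Z 2 q) ≤ 6 := by
      have h10 : Real.log (Z 2 q) ≤ Real.log (4 ^ (2 * 2)) :=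
        Real.log_le_log (lt_of_lt_of_le hq0 h5) h4
      have h11 : Real.log ((4 : ℝ) ^ (2 * 2)) = 8 * Real.log 2 := by
        rw [show (4 : ℝ) ^ (2 * 2) = 2 ^ 8 by norm_num, Real.log_pow]
        norm_num
      linarith
    have hla : Real.log a < 0 := Real.log_neg ha (lt_of_le_of_lt hab hb)
    push_cast at h7
    constructor
    · linarith [h7.2]
    · linarith [h7.1]
  set E : ℝ := Real.exp (K₂ - Real.log a) with hE
  have hE0 : 0 < E := Real.exp_pos _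
  set K' : ℝ := K₂ + 4 * E + 1 with hK'
  obtain ⟨C₄, hC₄, m₄, hra⟩ := ratio_analysis K' C₃ (by linarith) hC₃ m₃
  refine ⟨C₄ * Real.exp (K₂ + 3), max 2 m₄, fun q hq1 hq2 x hx => ?_⟩
  have hq0 : 0 < q := lt_of_lt_of_le ha hq1
  obtain ⟨hx0', hq, -⟩ := hQ q hq1 hq2 x hx
  refine ⟨hx0', fun m hm => ?_⟩
  have hm4 : m₄ ≤ m := (le_max_right _ _).trans hm
  have hm2 : 2 ≤ m := (le_max_left _ _).trans hm
  have hZp : ∀ k : ℕ, 2 ≤ k → 0 < Z k q := by
    intro k hk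
    have h3 := Zn_lower q hq0 k hk
    rw [← hZ2 k q hq0] at h3
    exact lt_of_lt_of_le (by positivity) h3
  have h3 := hra (fun k => Z k q * x ^ k)
    (fun k hk => mul_pos (hZp k hk) (pow_pos hx0' k))
    (fun k hk => ?_) (fun k hk => ?_) m hm4
  · have hZm := hZp m hm2
    have h4 : Z (m + 1) q * x ^ (m + 1) / (Z m q * x ^ m) - 1 =
        x * (Z (m + 1) q / Z m q - 1 / x) := by
      rw [pow_succ, mul_sub, mul_one_div_cancel hx0'.ne']
      congr 1
      have hxm : x ^ m ≠ 0 := (pow_pos hx0' m).ne'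
      field_simp
    rw [h4, abs_mul, abs_of_pos hx0'] at h3
    have h5 : Real.exp (-K₂ - 3) ≤ x := by
      rw [← Real.le_log_iff_exp_le hx0']
      exact (hxb q hq1 hq2 x hx).2
    have h6 : (1 : ℝ) ≤ Real.exp (K₂ + 3) * x := by
      have h7 : Real.exp (K₂ + 3) * Real.exp (-K₂ - 3) = 1 := by
        rw [← Real.exp_add]
        simp
      rw [← h7]
      exact mul_le_mul_of_nonneg_left h5 (Real.exp_pos _).le
    have h8 : 0 ≤ |Z (m + 1) q / Z m q - 1 / x| := abs_nonneg _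
    calc |Z (m + 1) q / Z m q - 1 / x|
        ≤ (Real.exp (K₂ + 3) * x) * |Z (m + 1) q / Z m q - 1 / x| := by
          nlinarith
      _ = Real.exp (K₂ + 3) * (x * |Z (m + 1) q / Z m q - 1 / x|) := by ring
      _ ≤ Real.exp (K₂ + 3) * (C₄ * Real.log m / (m : ℝ) ^ ((1 : ℝ) / 4)) :=
          mul_le_mul_of_nonneg_left h3 (Real.exp_pos _).le
      _ = C₄ * Real.exp (K₂ + 3) * Real.log m / (m : ℝ) ^ ((1 : ℝ) / 4) := by ring
  · -- the bounds for `z`
    obtain ⟨h4, h5, -⟩ := hq k hk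
    have hk1 : (1 : ℝ) ≤ k := by exact_mod_cast (by omega : 1 ≤ k)
    have hL : 0 ≤ (Real.log k) ^ 2 := sq_nonneg _
    constructor
    · refine le_trans (Real.exp_le_exp.2 ?_) h4
      have : K₂ ≤ K' := by linarith
      nlinarith
    · refine h5.trans ?_
      have h6 : x ≤ E := by
        rw [hE, ← Real.log_le_iff_le_exp hx0']
        exact (hxb q hq1 hq2 x hx).1
      have : 4 * x ≤ K' := by linarith
      nlinarith
  · -- the ratio inequality
    have h4 := hri q hq1 hq2 k hk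
    rw [← hZ2 _ _ hq0, ← hZ2 _ _ hq0, ← hZ2 _ _ hq0] at h4
    have h5 : 0 ≤ x ^ (2 * k + 2) := pow_nonneg hx0'.le _
    have h6 := mul_le_mul_of_nonneg_right h4 h5
    calc (1 - C₃ / Real.sqrt k) * (Z (k + 1) q * x ^ (k + 1)) ^ 2
        = (1 - C₃ / Real.sqrt k) * Z (k + 1) q ^ 2 * x ^ (2 * k + 2) := by ring
      _ ≤ Z k q * Z (k + 2) q * x ^ (2 * k + 2) := h6
      _ = Z k q * x ^ k * (Z (k + 2) q * x ^ (k + 2)) := by ring

end Pool.Agent.Results.MP_cd187e_co.RatioLimit
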