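import Pool.Agent.Results.MP_cd187e_co.QuasiPoly
import Pool.Agent.Helper99.PT.Fin
import Pool.Agent.Helper99.PT.Conc

/-!
# MP_cd187e_co: uniform strict log-concavity of the critical curve

The area of a weighted polygon of `2m` steps has variance at least `c √m`; compared with the error
`O((log m)²)` of `QuasiPoly` this gives a modulus of strict concavity. See `Pool/Agent/Helper99/PT`.
-/

set_option autoImplicit false

namespace Pool.Agent.Results.MP_cd187e_co.UniformConcavity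

open Filter Pool.Agent.Helper99.PT
open Pool.Agent.Helper2.QP (Zn)

/-- Let `F s = log (x_c (exp s))`, `s < 0`, be the logarithm of the critical curve as a function of
`s = log q`. On each compact interval `[α, β]` of `(-∞, 0)` there is a constant `c > 0` such that
`t F(u) + (1 - t) F(v) + c t (1 - t) |u - v|⁵ ≤ F(t u + (1 - t) v)` for all `u, v` in `[α, β]` and
`t` in `[0, 1]`. -/
theorem result :
    ∀ (P : (m : ℕ) → (Fin (2*m) → Fin 4) → ℕ → ℤ × ℤ),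
      (∀ m s k, P m s k = ∑ i ∈ Finset.univ.filter (fun i : Fin (2*m) => i.val < k),
        (![((1:ℤ), (0:ℤ)), ((0:ℤ), (1:ℤ)), ((-1:ℤ), (0:ℤ)), ((0:ℤ), (-1:ℤ))] : Fin 4 → ℤ × ℤ) (s i)) →
    ∀ (Z : ℕ → ℝ → ℝ),
      (∀ m q, Z m q = ∑ s ∈ Finset.univ.filter (fun s : Fin (2*m) → Fin 4 =>
          P m s (2*m) = 0 ∧ ∀ j k : Fin (2*m), P m s j.val = P m s k.val → j = k),
        q ^ ((((|∑ k : Fin (2*m), ((P m s k.val).1 * (P m s (k.val+1)).2
              - (P m s (k.val+1)).1 * (P m s k.val).2)| : ℤ) : ℝ)) / 2)) →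
    ∀ F : ℝ → ℝ,
      (∀ s, F s = Real.log (1 / Filter.limsup
        (fun m : ℕ => (Z m (Real.exp s)) ^ ((1:ℝ) / m)) Filter.atTop)) →
    ∀ α β : ℝ, α ≤ β → β < 0 → ∃ c : ℝ, 0 < c ∧
      ∀ u v t : ℝ, α ≤ u → u ≤ β → α ≤ v → v ≤ β → 0 ≤ t → t ≤ 1 →
        t * F u + (1 - t) * F v + c * (t * (1 - t)) * |u - v| ^ 5 ≤ F (t * u + (1 - t) * v) := by
  intro P hP Z hZ F hF α β hαβ hβ
  have hZ2 : ∀ m q, 0 < q → Z m q = Zn (2 * m) q := fun m q hq =>
    Pool.Agent.Helper2.QP.frozen_eq P hP Z hZ m q hq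
  have ha : 0 < Real.exp α := Real.exp_pos _
  have hab : Real.exp α ≤ Real.exp β := Real.exp_le_exp.2 hαβ
  have hb : Real.exp β < 1 := Real.exp_lt_one_iff.2 hβ
  obtain ⟨K, hK, hQ⟩ := Pool.Agent.Results.MP_cd187e_co.QuasiPoly.result P hP Z hZ _ _ ha hab hb
  obtain ⟨c, hc, m₀, hm₀, hcv⟩ := conv_fin _ _ ha hab hb
  rw [Real.log_exp, Real.log_exp] at hcv
  have hd1 : ∀ m : ℕ, 2 ≤ m → ∀ s, α ≤ s → s ≤ β →
      |F s + Real.log (Z m (Real.exp s)) / m| ≤ K * (Real.log m) ^ 2 / m := by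
    intro m hm s hs hs'
    rw [hF s]
    exact ((hQ (Real.exp s) (Real.exp_le_exp.2 hs) (Real.exp_le_exp.2 hs') _ rfl).2.1 m hm).2.2
  have hd2 : ∀ m : ℕ, m₀ ≤ m → ∀ u v t : ℝ, α ≤ u → u ≤ β → α ≤ v → v ≤ β → 0 ≤ t → t ≤ 1 →
      Real.log (Z m (Real.exp (t * u + (1 - t) * v))) +
          c * Real.sqrt m / 2 * (t * (1 - t)) * (u - v) ^ 2 ≤
        t * Real.log (Z m (Real.exp u)) + (1 - t) * Real.log (Z m (Real.exp v)) := by
    intro m hm u v t h1 h2 h3 h4 h5 h6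
    have h7 := hcv m hm u v t h1 h2 h3 h4 h5 h6
    rw [hZ2 _ _ (Real.exp_pos _), hZ2 _ _ (Real.exp_pos _), hZ2 _ _ (Real.exp_pos _)]
    exact h7
  obtain ⟨c₂, hc₂, hmod⟩ := conc_modulus (fun m s => Real.log (Z m (Real.exp s))) F α β K c
    hαβ hK.le hc m₀ hm₀ hd1 hd2
  refine ⟨c₂, hc₂, fun u v t hu hu' hv hv' ht ht' =>
    conc_all F α β c₂ hc₂.le (fun u v t hu hu' hv hv' ht ht' => ?_) hmod u v t hu hu' hv hv' ht ht'⟩
  rcases eq_or_ne u v with huv | huv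
  · subst huv
    rw [← add_mul, add_sub_cancel, one_mul, ← add_mul, add_sub_cancel, one_mul]
  rcases ht.eq_or_lt with h0 | h0
  · rw [← h0]
    simp
  rcases ht'.eq_or_lt with h3 | h3
  · rw [h3]
    simp
  exact (conc_strict (fun m s => Real.log (Z m (Real.exp s))) F α β K c hK.le hc m₀ hm₀ hd1 hd2
    u v t hu hu' hv hv' huv h0 h3).le

end Pool.Agent.Results.MP_cd187e_co.UniformConcavity
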